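import Mathlib
import Pool.Agent.TH278.DX.Defs3
import Pool.Agent.TH576.J4447
import Pool.Agent.TH228.J4953
import Pool.Agent.TH889.J5187
set_option autoImplicit false

/-!
# Extensions with amenable quotient: averaging an operator which is invariant under the kernel
-/

namespace Pool.Agent.TH611.DX

open Pool.Agent.TH278.DX
open scoped ComplexConjugate

theorem sim_of_extension {G Q H : Type} [Group G] [Group Q] [NormedAddCommGroup H]
    [InnerProductSpace ℂ H] [CompleteSpace H] (p : G →* Q) (hp : Function.Surjective p)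
    (hQ : Amenable Q) (π : G →* (H →L[ℂ] H)ˣ) (c : ℝ) (hπ : Bdd π c)
    (κ0 : ℝ) (hker : Sim (π.comp p.ker.subtype) κ0) : ∃ κ : ℝ, Sim π κ := by
  obtain ⟨M, hadd, hsmul, hconst, hnorm, hinv⟩ := j4953_exists hQ
  obtain ⟨k, hk1, hk⟩ : ∃ k : ℝ, 1 ≤ k ∧ Bdd π k :=
    ⟨max c 1, le_max_right _ _, fun g => (hπ g).trans (le_max_left _ _)⟩
  obtain ⟨K, hK1, hK⟩ : ∃ K : ℝ, 1 ≤ K ∧ Sim (π.comp p.ker.subtype) K := by
    obtain ⟨S, hS1, hS2⟩ := hker
    exact ⟨max κ0 1, le_max_right _ _, S, hS1.trans (le_max_left _ _), hS2⟩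
  have hk0 : 0 < k := by linarith
  have hK0 : 0 < K := by linarith
  obtain ⟨A0, hA0s, hA0l, hA0u, hA0i⟩ := (sim_iff_inv _ K hK1).1 hK
  set U : G → (H →L[ℂ] H) := fun g => ((π g : (H →L[ℂ] H)ˣ) : H →L[ℂ] H) with hU
  have hUmul : ∀ g h (x : H), U (g * h) x = U g (U h x) := fun g h x => by simp [hU]
  have hUU' : ∀ g (x : H), U g⁻¹ (U g x) = x := fun g x => by
    have : U g⁻¹ * U g = 1 := by simp [hU]
    calc U g⁻¹ (U g x) = (U g⁻¹ * U g) x := rfl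
      _ = x := by rw [this]; rfl
  have hUn : ∀ g (x : H), ‖U g x‖ ≤ k * ‖x‖ := fun g x =>
    ((U g).le_opNorm x).trans (mul_le_mul_of_nonneg_right (hk g) (norm_nonneg _))
  have hUl : ∀ g (x : H), ‖x‖ ≤ k * ‖U g x‖ := by
    intro g x
    calc ‖x‖ = ‖U g⁻¹ (U g x)‖ := by rw [hUU']
      _ ≤ k * ‖U g x‖ := hUn _ _
  have hA0N : ∀ (n : G), n ∈ p.ker → ∀ x y : H, inner ℂ (A0 (U n x)) (U n y) = inner ℂ (A0 x) y :=
    fun n hn x y => hA0i ⟨n, hn⟩ x y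
  -- a section of `p`
  set r : Q → G := Function.surjInv hp with hr
  have hpr : ∀ q, p (r q) = q := Function.surjInv_eq hp
  have hsec : ∀ (g : G) (x y : H), inner ℂ (A0 (U (r (p g))⁻¹ x)) (U (r (p g))⁻¹ y) =
      inner ℂ (A0 (U g⁻¹ x)) (U g⁻¹ y) := by
    intro g x y
    have hn : g⁻¹ * r (p g) ∈ p.ker := by
      rw [MonoidHom.mem_ker, map_mul, map_inv, hpr, inv_mul_cancel]
    have e : ∀ z : H, U g⁻¹ z = U (g⁻¹ * r (p g)) (U (r (p g))⁻¹ z) := by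
      intro z
      rw [← hUmul]
      congr 2
      group
    rw [e x, e y, hA0N _ hn]
  -- the invariant form
  have hbd : ∀ v w : H, ∀ q : Q, ‖(inner ℂ (A0 (U (r q)⁻¹ v)) (U (r q)⁻¹ w) : ℂ)‖ ≤
      (‖A0‖ * k ^ 2) * ‖v‖ * ‖w‖ := by
    intro v w g
    refine (norm_inner_le_norm _ _).trans ?_
    calc ‖A0 (U (r g)⁻¹ v)‖ * ‖U (r g)⁻¹ w‖ ≤ (‖A0‖ * (k * ‖v‖)) * (k * ‖w‖) :=
          mul_le_mul ((A0.le_opNorm _).trans (mul_le_mul_of_nonneg_left (hUn _ _) (norm_nonneg _)))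
            (hUn _ _) (norm_nonneg _) (by positivity)
      _ = _ := by ring
  have hbd' : ∀ v w : H, ∃ C, ∀ q : Q, ‖(inner ℂ (A0 (U (r q)⁻¹ v)) (U (r q)⁻¹ w) : ℂ)‖ ≤ C :=
    fun v w => ⟨_, hbd v w⟩
  let B0 : H →ₗ⋆[ℂ] H →ₗ[ℂ] ℂ := LinearMap.mk₂'ₛₗ (starRingEnd ℂ) (RingHom.id ℂ)
    (fun v w => M (fun q => inner ℂ (A0 (U (r q)⁻¹ v)) (U (r q)⁻¹ w)))
    (by
      intro v v' w
      have : (fun q : Q => (inner ℂ (A0 (U (r q)⁻¹ (v + v'))) (U (r q)⁻¹ w) : ℂ)) =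
          fun q => inner ℂ (A0 (U (r q)⁻¹ v)) (U (r q)⁻¹ w) +
            inner ℂ (A0 (U (r q)⁻¹ v')) (U (r q)⁻¹ w) := by
        funext g
        rw [map_add, map_add, inner_add_left]
      show M (fun q => inner ℂ (A0 (U (r q)⁻¹ (v + v'))) (U (r q)⁻¹ w)) = _
      rw [this]
      exact hadd _ _ (hbd' v w) (hbd' v' w))
    (by
      intro s v w
      have : (fun q : Q => (inner ℂ (A0 (U (r q)⁻¹ (s • v))) (U (r q)⁻¹ w) : ℂ)) =
          fun q => conj s * inner ℂ (A0 (U (r q)⁻¹ v)) (U (r q)⁻¹ w) := by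
        funext g
        rw [map_smul, map_smul, inner_smul_left]
      show M (fun q => inner ℂ (A0 (U (r q)⁻¹ (s • v))) (U (r q)⁻¹ w)) = _
      rw [this]
      exact hsmul _ _ (hbd' v w))
    (by
      intro v w w'
      have : (fun q : Q => (inner ℂ (A0 (U (r q)⁻¹ v)) (U (r q)⁻¹ (w + w')) : ℂ)) =
          fun q => inner ℂ (A0 (U (r q)⁻¹ v)) (U (r q)⁻¹ w) +
            inner ℂ (A0 (U (r q)⁻¹ v)) (U (r q)⁻¹ w') := by
        funext g
        rw [map_add, inner_add_right]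
      show M (fun q => inner ℂ (A0 (U (r q)⁻¹ v)) (U (r q)⁻¹ (w + w'))) = _
      rw [this]
      exact hadd _ _ (hbd' v w) (hbd' v w'))
    (by
      intro s v w
      have : (fun q : Q => (inner ℂ (A0 (U (r q)⁻¹ v)) (U (r q)⁻¹ (s • w)) : ℂ)) =
          fun q => s * inner ℂ (A0 (U (r q)⁻¹ v)) (U (r q)⁻¹ w) := by
        funext g
        rw [map_smul, inner_smul_right]
      show M (fun q => inner ℂ (A0 (U (r q)⁻¹ v)) (U (r q)⁻¹ (s • w))) = _
      rw [this]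
      exact hsmul _ _ (hbd' v w))
  have hB0 : ∀ v w, B0 v w = M (fun q => inner ℂ (A0 (U (r q)⁻¹ v)) (U (r q)⁻¹ w)) :=
    fun v w => rfl
  let B : H →L⋆[ℂ] H →L[ℂ] ℂ := LinearMap.mkContinuous₂ B0 (‖A0‖ * k ^ 2) (by
    intro v w
    rw [hB0]
    exact hnorm _ _ (hbd v w))
  have hB : ∀ v w, B v w = M (fun q => inner ℂ (A0 (U (r q)⁻¹ v)) (U (r q)⁻¹ w)) :=
    fun v w => rfl
  let A : H →L[ℂ] H := InnerProductSpace.continuousLinearMapOfBilin B
  have hA : ∀ v w, inner ℂ (A v) w = M (fun q => inner ℂ (A0 (U (r q)⁻¹ v)) (U (r q)⁻¹ w)) := by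
    intro v w
    rw [← hB]
    exact InnerProductSpace.continuousLinearMapOfBilin_apply B v w
  have hAinv : ∀ h v w, (inner ℂ (A (U h v)) (U h w) : ℂ) = inner ℂ (A v) w := by
    intro h v w
    rw [hA, hA, ← hinv (p h)⁻¹ (fun q => inner ℂ (A0 (U (r q)⁻¹ v)) (U (r q)⁻¹ w)) (hbd' _ _)]
    congr 1
    funext q
    have e1 : (p h)⁻¹ * q = p (h⁻¹ * r q) := by rw [map_mul, map_inv, hpr]
    rw [e1, hsec (h⁻¹ * r q) v w]
    have e : (h⁻¹ * r q)⁻¹ = (r q)⁻¹ * h := by group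
    rw [e, hUmul, hUmul]
  have hreal : ∀ z : H, (inner ℂ (A0 z) z : ℂ) = (((inner ℂ (A0 z) z : ℂ).re : ℝ) : ℂ) := by
    intro z
    have h1 : conj (inner ℂ (A0 z) z : ℂ) = inner ℂ (A0 z) z := by
      rw [inner_conj_symm, hA0s]
    exact (Complex.conj_eq_iff_real.1 h1).elim fun t ht => by rw [ht]; simp
  have hArange : ∀ v, ‖v‖ ^ 2 / k ^ 2 ≤ (inner ℂ (A v) v : ℂ).re ∧
      (inner ℂ (A v) v : ℂ).re ≤ (K ^ 2 * k ^ 2) * ‖v‖ ^ 2 := by
    intro v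
    have e : (fun q : Q => (inner ℂ (A0 (U (r q)⁻¹ v)) (U (r q)⁻¹ v) : ℂ)) =
        fun q => (((inner ℂ (A0 (U (r q)⁻¹ v)) (U (r q)⁻¹ v) : ℂ).re : ℝ) : ℂ) := by
      funext q
      exact hreal _
    rw [hA, e]
    refine Pool.Agent.TH889.J5187.mean_re hadd hconst hnorm
      (fun q => (inner ℂ (A0 (U (r q)⁻¹ v)) (U (r q)⁻¹ v) : ℂ).re) _ _ (fun q => ?_) (fun q => ?_)
    · rw [div_le_iff₀ (by positivity)]
      have h1 := hUl (r q)⁻¹ v
      have h2 := hA0l (U (r q)⁻¹ v)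
      have h3 : ‖v‖ ^ 2 ≤ (k * ‖U (r q)⁻¹ v‖) ^ 2 := pow_le_pow_left₀ (norm_nonneg _) h1 2
      rw [mul_pow] at h3
      nlinarith [sq_nonneg k, mul_le_mul_of_nonneg_left h2 (sq_nonneg k)]
    · have h2 := hA0u (U (r q)⁻¹ v)
      have h3 : ‖U (r q)⁻¹ v‖ ^ 2 ≤ (k * ‖v‖) ^ 2 :=
        pow_le_pow_left₀ (norm_nonneg _) (hUn _ _) 2
      rw [mul_pow] at h3
      nlinarith [mul_le_mul_of_nonneg_left h3 (sq_nonneg K)]
  set D : H →L[ℂ] H := ((k ^ 2 / 2 : ℝ) : ℂ) • (A + ContinuousLinearMap.adjoint A) with hDdef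
  have hD : ∀ v w, (inner ℂ (D v) w : ℂ) =
      ((k ^ 2 / 2 : ℝ) : ℂ) * (inner ℂ (A v) w + inner ℂ v (A w)) := by
    intro v w
    rw [hDdef, smul_apply, inner_smul_left, Complex.conj_ofReal, add_apply,
      inner_add_left, ContinuousLinearMap.adjoint_inner_left]
  have hDre : ∀ v, (inner ℂ (D v) v : ℂ).re = k ^ 2 * (inner ℂ (A v) v : ℂ).re := by
    intro v
    rw [hD, Complex.re_ofReal_mul, Complex.add_re]
    have h1 : (inner ℂ v (A v) : ℂ).re = (inner ℂ (A v) v : ℂ).re := by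
      rw [← inner_conj_symm, Complex.conj_re]
    rw [h1]
    ring
  have hInv : Inv π 1 ((K * k ^ 2) ^ 2) := by
    refine ⟨D, ?_, ?_, ?_, ?_⟩
    · intro x y
      rw [← inner_conj_symm x (D y), hD, hD, map_mul, Complex.conj_ofReal, map_add,
        inner_conj_symm, inner_conj_symm]
      ring
    · intro x
      rw [hDre, one_mul]
      have h1 := (hArange x).1
      rw [div_le_iff₀ (by positivity)] at h1
      linarith
    · intro x
      rw [hDre]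
      have h1 := mul_le_mul_of_nonneg_left (hArange x).2 (by positivity : (0 : ℝ) ≤ k ^ 2)
      calc _ ≤ _ := h1
        _ = _ := by ring
    · intro g x y
      show (inner ℂ (D (U g x)) (U g y) : ℂ) = inner ℂ (D x) y
      rw [hD, hD, hAinv]
      congr 2
      rw [← inner_conj_symm (U g x), hAinv, inner_conj_symm]
  exact ⟨K * k ^ 2, (sim_iff_inv π (K * k ^ 2) (by nlinarith)).2 hInv⟩

end Pool.Agent.TH611.DX
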