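import Mathlib
import Pool.Agent.TH278.DX.Defs3
import Pool.Agent.TH564.DX.Sub
import Pool.Agent.TH611.DX.Ext
set_option autoImplicit false

/-!
# Unitarisability of extensions and of direct products, reduction to the theorem on exact groups
-/

namespace Pool.Agent.TH611.DX

open Pool.Agent.TH278.DX

/-- every uniformly bounded representation is similar to a unitary one -/
def Unit (G : Type) [Group G] : Prop :=
  ∀ (H : Type) [NormedAddCommGroup H] [InnerProductSpace ℂ H] [CompleteSpace H]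
    (π : G →* (H →L[ℂ] H)ˣ) (c : ℝ), Bdd π c → ∃ κ : ℝ, Sim π κ

/-- the theorem on exact groups, as a statement -/
def ExactStatement : Prop :=
  ∀ (Q : Type) [Group Q], Unit Q → PropertyA Q → Amenable Q

theorem Unit.of_surj {G K : Type} [Group G] [Group K] (h : Unit G) (f : G →* K)
    (hf : Function.Surjective f) : Unit K := by
  intro H _ _ _ π c hc
  obtain ⟨κ, S, hS, hU⟩ := h H (π.comp f) c (fun g => hc (f g))
  refine ⟨κ, S, hS, fun k => ?_⟩
  obtain ⟨g, rfl⟩ := hf k
  exact hU g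

theorem Unit.sub {G : Type} [Group G] (h : Unit G) (P : Subgroup G) : Unit P :=
  Pool.Agent.TH564.DX.unitarizable_sub h P

theorem Unit.of_inj {G K : Type} [Group G] [Group K] (h : Unit G) (i : K →* G)
    (hi : Function.Injective i) : Unit K :=
  (h.sub i.range).of_surj ((MonoidHom.ofInjective hi).symm.toMonoidHom)
    (MonoidHom.ofInjective hi).symm.surjective

/-- extension with amenable quotient; the kernel is given as the image of `i` -/
theorem Unit.ext_amenable {K G Q : Type} [Group K] [Group G] [Group Q] (p : G →* Q)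
    (hp : Function.Surjective p) (hK : Unit p.ker) (hQ : Amenable Q) : Unit G := by
  intro H _ _ _ π c hc
  obtain ⟨κ0, h0⟩ := hK H (π.comp p.ker.subtype) c (fun g => hc g)
  exact sim_of_extension p hp hQ π c hc κ0 h0

theorem ext_exact (E : ExactStatement) {G Q : Type} [Group G] [Group Q] (p : G →* Q)
    (hp : Function.Surjective p) (hK : Unit p.ker) (hQ : Unit Q) (hA : PropertyA Q) : Unit G :=
  Unit.ext_amenable (K := G) p hp hK (E Q hQ hA)

/-- the kernel may be replaced by a group mapping onto it -/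
theorem ext_exact' (E : ExactStatement) {K G Q : Type} [Group K] [Group G] [Group Q] (i : K →* G)
    (p : G →* Q) (hp : Function.Surjective p) (hi : ∀ g, p g = 1 → ∃ k, i k = g)
    (hi' : ∀ k, p (i k) = 1)
    (hK : Unit K) (hQ : Unit Q) (hA : PropertyA Q) : Unit G := by
  refine ext_exact E p hp ?_ hQ hA
  refine hK.of_surj (i.codRestrict p.ker fun k => hi' k) ?_
  rintro ⟨g, hg⟩
  obtain ⟨k, hk⟩ := hi g hg
  exact ⟨k, Subtype.ext hk⟩

theorem prod_left (E : ExactStatement) {G₁ G₂ : Type} [Group G₁] [Group G₂] (N₁ : Subgroup G₁)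
    [N₁.Normal] (h₁ : Unit G₁) (hA : PropertyA (G₁ ⧸ N₁)) (h : Unit (N₁ × G₂)) :
    Unit (G₁ × G₂) := by
  refine ext_exact' E (MonoidHom.prodMap N₁.subtype (MonoidHom.id G₂))
    ((QuotientGroup.mk' N₁).comp (MonoidHom.fst G₁ G₂)) ?_ ?_ ?_ h ?_ hA
  · exact (QuotientGroup.mk'_surjective N₁).comp Prod.fst_surjective
  · rintro ⟨a, b⟩ hab
    have ha : a ∈ N₁ := by
      have : ((a : G₁) : G₁ ⧸ N₁) = 1 := hab
      exact (QuotientGroup.eq_one_iff a).1 this
    exact ⟨(⟨a, ha⟩, b), rfl⟩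
  · rintro ⟨a, b⟩
    exact (QuotientGroup.eq_one_iff (a : G₁)).2 a.2
  · exact h₁.of_surj (QuotientGroup.mk' N₁) (QuotientGroup.mk'_surjective N₁)

theorem Unit.swap {G₁ G₂ : Type} [Group G₁] [Group G₂] (h : Unit (G₁ × G₂)) : Unit (G₂ × G₁) :=
  h.of_surj (MulEquiv.prodComm : G₁ × G₂ ≃* G₂ × G₁).toMonoidHom MulEquiv.prodComm.surjective

theorem prod_iff (E : ExactStatement) {G₁ G₂ : Type} [Group G₁] [Group G₂] (N₁ : Subgroup G₁)
    (N₂ : Subgroup G₂) [N₁.Normal] [N₂.Normal] (h₁ : Unit G₁) (h₂ : Unit G₂)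
    (hA₁ : PropertyA (G₁ ⧸ N₁)) (hA₂ : PropertyA (G₂ ⧸ N₂)) :
    Unit (G₁ × G₂) ↔ Unit (N₁ × N₂) := by
  constructor
  · intro h
    refine h.of_inj (MonoidHom.prodMap N₁.subtype N₂.subtype) ?_
    exact Function.Injective.prodMap N₁.subtype_injective N₂.subtype_injective
  · intro h
    apply prod_left E N₁ h₁ hA₁
    apply Unit.swap
    apply prod_left E N₂ h₂ hA₂
    exact h.swap

theorem propertyA_of_equiv {G K : Type} [Group G] [Group K] (e : G ≃* K) (h : PropertyA G) :
    PropertyA K := by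
  classical
  intro E ε hε
  obtain ⟨F, ξ, h0, h1, h2⟩ := h (E.map e.symm.toEquiv.toEmbedding) ε hε
  have hsum : ∀ (f : G → ℝ), ∑ k ∈ F.map e.toEquiv.toEmbedding, f (e.symm k) = ∑ k ∈ F, f k := by
    intro f
    rw [Finset.sum_map]
    apply Finset.sum_congr rfl
    intro k _
    simp
  refine ⟨F.map e.toEquiv.toEmbedding, fun v x => ξ (e.symm v) (e.symm x), ?_, ?_, ?_⟩
  · intro v x hx
    have h3 := h0 _ _ hx
    rw [Finset.mem_map]
    exact ⟨_, h3, by simp⟩
  · intro v
    have h3 := hsum fun k => ξ (e.symm v) (e.symm v * k) ^ 2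
    simp only [map_mul]
    rw [h3]
    exact h1 _
  · intro v g hg
    have h3 := hsum fun k => ξ (e.symm v) (e.symm v * k) * ξ (e.symm v * e.symm g) (e.symm v * k)
    simp only [map_mul]
    rw [h3]
    refine h2 (e.symm v) (e.symm g) ?_
    rw [Finset.mem_map]
    exact ⟨g, hg, rfl⟩

/-- a direct product with one exact factor -/
theorem prod_exact (E : ExactStatement) {G₁ G₂ : Type} [Group G₁] [Group G₂] (h₁ : Unit G₁)
    (h₂ : Unit G₂) (hA : PropertyA G₁ ∨ PropertyA G₂) : Unit (G₁ × G₂) := by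
  have key : ∀ {G₁ G₂ : Type} [Group G₁] [Group G₂], Unit G₁ → Unit G₂ → PropertyA G₁ →
      Unit (G₁ × G₂) := by
    intro G₁ G₂ _ _ h₁ h₂ hA
    refine ext_exact' E (MonoidHom.inr G₁ G₂) (MonoidHom.fst G₁ G₂) Prod.fst_surjective ?_ ?_
      h₂ h₁ hA
    · rintro ⟨a, b⟩ hab
      refine ⟨b, ?_⟩
      have : a = 1 := hab
      rw [this]
      rfl
    · intro k
      rfl
  rcases hA with hA | hA
  · exact key h₁ h₂ hA
  · exact (key h₂ h₁ hA).swap

end Pool.Agent.TH611.DX
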