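import Mathlib
import Pool.Agent.TH278.DX.Defs3
set_option autoImplicit false

/-!
# Day's trick: an amenable group has almost invariant unit vectors in `ℓ²(G)`
-/

namespace Pool.Agent.TH611.DX.Day

open Pool.Agent.TH278.DX

set_option linter.unusedSectionVars false
variable {G : Type} [Group G]

/-- means of finite sums -/
theorem mean_sum {ι : Type} (m : (G → ℝ) → ℝ)
    (hadd : ∀ f h : G → ℝ, (∃ C, ∀ x, |f x| ≤ C) → (∃ C, ∀ x, |h x| ≤ C) →
      m (fun x => f x + h x) = m f + m h)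
    (hsmul : ∀ (r : ℝ) (f : G → ℝ), (∃ C, ∀ x, |f x| ≤ C) → m (fun x => r * f x) = r * m f)
    (s : Finset ι) (F : ι → G → ℝ) (hF : ∀ i, ∃ C, ∀ x, |F i x| ≤ C) :
    (∃ C, ∀ x, |∑ i ∈ s, F i x| ≤ C) ∧ m (fun x => ∑ i ∈ s, F i x) = ∑ i ∈ s, m (F i) := by
  classical
  induction s using Finset.induction_on with
  | empty =>
    refine ⟨⟨0, fun x => by simp⟩, ?_⟩
    have := hsmul 0 (fun _ => 0) ⟨0, fun x => by simp⟩
    simpa using this
  | insert i s hi ih =>
    obtain ⟨⟨C, hC⟩, ih2⟩ := ih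
    obtain ⟨D, hD⟩ := hF i
    constructor
    · refine ⟨D + C, fun x => ?_⟩
      rw [Finset.sum_insert hi]
      exact (abs_add_le _ _).trans (add_le_add (hD x) (hC x))
    · simp only [Finset.sum_insert hi]
      rw [hadd _ _ ⟨D, hD⟩ ⟨C, hC⟩, ih2]

open scoped Classical in
/-- `G →₀ ℝ` inside `ℓ¹` -/
noncomputable def J : (G →₀ ℝ) →ₗ[ℝ] lp (fun _ : G => ℝ) 1 :=
  Finsupp.lsum ℝ fun x => lp.lsingle (𝕜 := ℝ) (E := fun _ : G => ℝ) 1 x

open scoped Classical in
theorem J_single (x : G) (c : ℝ) : J (Finsupp.single x c) = lp.single 1 x c := by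
  rw [J, Finsupp.lsum_single]
  rfl

theorem J_apply (f : G →₀ ℝ) (y : G) : (J f : lp (fun _ : G => ℝ) 1) y = f y := by
  classical
  induction f using Finsupp.induction_linear with
  | zero => simp
  | add f g hf hg => rw [map_add, Finsupp.add_apply, ← hf, ← hg]; rfl
  | single x c =>
    rw [J_single]
    by_cases h : y = x
    · subst h
      rw [lp.single_apply_self, Finsupp.single_eq_same]
    · rw [lp.single_apply_ne _ _ _ h, Finsupp.single_eq_of_ne h]

/-- the translations -/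
noncomputable def tr (s : G) : (G →₀ ℝ) →ₗ[ℝ] (G →₀ ℝ) := Finsupp.lmapDomain ℝ ℝ (s * ·)

theorem tr_single (s x : G) (c : ℝ) : tr s (Finsupp.single x c) = Finsupp.single (s * x) c := by
  simp [tr, Finsupp.lmapDomain_apply, Finsupp.mapDomain_single]

theorem tr_apply (s : G) (f : G →₀ ℝ) (y : G) : tr s f y = f (s⁻¹ * y) := by
  have h := Finsupp.mapDomain_apply (f := fun x : G => s * x) (mul_right_injective s) f (s⁻¹ * y)
  simp only [mul_inv_cancel_left] at h
  exact h

/-- the family of differences -/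
noncomputable def L (S : Finset G) : (G →₀ ℝ) →ₗ[ℝ] (S → lp (fun _ : G => ℝ) 1) :=
  LinearMap.pi fun s => J ∘ₗ (tr (s : G) - LinearMap.id)

/-- finitely supported probabilities -/
def P (G : Type) : Set (G →₀ ℝ) := {f | (∀ x, 0 ≤ f x) ∧ (f.sum fun _ c => c) = 1}

theorem P_convex : Convex ℝ (P G) := by
  intro f hf g hg a b ha hb hab
  refine ⟨fun x => ?_, ?_⟩
  · rw [Finsupp.add_apply, Finsupp.smul_apply, Finsupp.smul_apply]
    exact add_nonneg (mul_nonneg ha (hf.1 x)) (mul_nonneg hb (hg.1 x))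
  · rw [Finsupp.sum_add_index' (fun _ => rfl) (fun _ _ _ => rfl),
      Finsupp.sum_smul_index' (fun _ => rfl), Finsupp.sum_smul_index' (fun _ => rfl)]
    have h1 := hf.2
    have h2 := hg.2
    simp only [Finsupp.sum, smul_eq_mul] at h1 h2 ⊢
    rw [← Finset.mul_sum, ← Finset.mul_sum, h1, h2, mul_one, mul_one]
    exact hab

theorem exists_l1 (hG : Amenable G) (S : Finset G) (r : ℝ) (hr : 0 < r) :
    ∃ f ∈ P G, ‖L S f‖ < r := by
  classical
  by_contra hcon
  push Not at hcon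
  obtain ⟨m, hadd, hsmul, hpos, hone, hinv⟩ := hG
  have hdis : Disjoint (Metric.ball (0 : S → lp (fun _ : G => ℝ) 1) r) ((L S) '' (P G)) := by
    rw [Set.disjoint_left]
    rintro _ hz ⟨f, hf, rfl⟩
    rw [mem_ball_zero_iff] at hz
    exact absurd hz (not_lt.2 (hcon f hf))
  obtain ⟨φ, u, h1, h2⟩ := geometric_hahn_banach_open (convex_ball _ _) Metric.isOpen_ball
    (P_convex.linear_image (L S)) hdis
  have hu : 0 < u := by
    have := h1 0 (Metric.mem_ball_self hr)
    simpa using this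
  set ψ : S → G → ℝ := fun s y => φ (Pi.single s (J (Finsupp.single y 1))) with hψ
  have hψb : ∀ s, ∃ C, ∀ y, |ψ s y| ≤ C := by
    intro s
    refine ⟨‖φ‖, fun y => ?_⟩
    rw [← Real.norm_eq_abs]
    refine (φ.le_opNorm _).trans ?_
    have : ‖(Pi.single s (J (Finsupp.single y 1)) : S → lp (fun _ : G => ℝ) 1)‖ ≤ 1 := by
      rw [pi_norm_le_iff_of_nonneg zero_le_one]
      intro s'
      by_cases h : s' = s
      · subst h
        rw [Pi.single_eq_same, J_single, lp.norm_single (by norm_num)]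
        simp
      · rw [Pi.single_eq_of_ne h]
        simp
    calc ‖φ‖ * _ ≤ ‖φ‖ * 1 := mul_le_mul_of_nonneg_left this (norm_nonneg _)
      _ = ‖φ‖ := mul_one _
  have hψ2 : ∀ x : G, u ≤ ∑ s : S, (ψ s ((s : G) * x) + (-1) * ψ s x) := by
    intro x
    have h3 := h2 _ ⟨Finsupp.single x 1, ⟨fun y => by
      rw [Finsupp.single_apply]; split_ifs <;> norm_num, by simp⟩, rfl⟩
    refine h3.trans (le_of_eq ?_)
    have h4 : L S (Finsupp.single x 1) = ∑ s : S, Pi.single s (J (Finsupp.single ((s : G) * x) 1) -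
        J (Finsupp.single x 1)) := by
      funext s
      rw [Finset.sum_apply, Finset.sum_eq_single s]
      · rw [Pi.single_eq_same]
        simp only [L, LinearMap.pi_apply, LinearMap.comp_apply, LinearMap.sub_apply,
          LinearMap.id_apply, map_sub, tr_single]
      · intro b _ hb
        rw [Pi.single_eq_of_ne hb.symm]
      · intro h
        exact absurd (Finset.mem_univ _) h
    rw [h4, map_sum]
    apply Finset.sum_congr rfl
    intro s _
    rw [Pi.single_sub, map_sub, hψ]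
    simp only
    ring
  have hb2 : ∀ s : S, ∃ C, ∀ x, |ψ s ((s : G) * x) + (-1) * ψ s x| ≤ C := by
    intro s
    obtain ⟨C, hC⟩ := hψb s
    refine ⟨C + C, fun x => (abs_add_le _ _).trans (add_le_add (hC _) ?_)⟩
    rw [neg_one_mul, abs_neg]
    exact hC x
  obtain ⟨⟨C, hC⟩, hm⟩ := mean_sum m hadd hsmul Finset.univ
    (fun (s : S) x => ψ s ((s : G) * x) + (-1) * ψ s x) hb2
  have hz : ∀ s : S, m (fun x => ψ s ((s : G) * x) + (-1) * ψ s x) = 0 := by
    intro s
    obtain ⟨C, hC⟩ := hψb s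
    rw [hadd _ _ ⟨C, fun x => hC _⟩ ⟨C, fun x => by rw [neg_one_mul, abs_neg]; exact hC x⟩,
      hsmul (-1) _ ⟨C, hC⟩]
    have := hinv (s : G)⁻¹ (ψ s) ⟨C, hC⟩
    simp only [inv_inv] at this
    rw [this]
    ring
  rw [Finset.sum_congr rfl fun s _ => hz s, Finset.sum_const_zero] at hm
  have hbu : ∃ D, ∀ x : G, |(-u) * (1 : ℝ)| ≤ D := ⟨|(-u) * (1 : ℝ)|, fun _ => le_rfl⟩
  have h5 : 0 ≤ m (fun x => (∑ s : S, (ψ s ((s : G) * x) + (-1) * ψ s x)) + (-u) * 1) := by
    apply hpos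
    · refine ⟨C + |(-u) * (1 : ℝ)|, fun x => (abs_add_le _ _).trans (add_le_add (hC x) le_rfl)⟩
    · intro x
      have := hψ2 x
      linarith
  rw [hadd _ _ ⟨C, hC⟩ hbu, hm, hsmul (-u) (fun _ => 1) ⟨1, fun x => by simp⟩, hone] at h5
  linarith

theorem l1_norm (f : G →₀ ℝ) (s : G) (D : Finset G) (r : ℝ)
    (hr : ‖J (tr s f - f)‖ < r) : ∑ y ∈ D, |f (s⁻¹ * y) - f y| < r := by
  have h := lp.sum_rpow_le_norm_rpow (p := 1) (by norm_num) (J (tr s f - f)) D
  simp only [ENNReal.toReal_one, Real.rpow_one] at h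
  refine lt_of_le_of_lt ?_ hr
  refine le_trans (le_of_eq ?_) h
  apply Finset.sum_congr rfl
  intro y _
  rw [J_apply, Finsupp.sub_apply, tr_apply, Real.norm_eq_abs]

theorem sqrt_diff (a b : ℝ) (ha : 0 ≤ a) (hb : 0 ≤ b) :
    (Real.sqrt a - Real.sqrt b) ^ 2 ≤ |a - b| := by
  have h1 := Real.sq_sqrt ha
  have h2 := Real.sq_sqrt hb
  have h3 := Real.sqrt_nonneg a
  have h4 := Real.sqrt_nonneg b
  rcases le_total (Real.sqrt a) (Real.sqrt b) with h | h
  · rw [abs_of_nonpos (by nlinarith)]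
    nlinarith
  · rw [abs_of_nonneg (by nlinarith)]
    nlinarith

/-- An amenable group has almost invariant unit vectors in `ℓ²(G)`. -/
theorem exists_almost_invariant (hG : Amenable G) (S : Finset G) (ε : ℝ) (hε : 0 < ε) :
    ∃ ξ : lp (fun _ : G => ℂ) 2, ‖ξ‖ = 1 ∧ ∀ s ∈ S, ∀ η : lp (fun _ : G => ℂ) 2,
      (∀ x, η x = ξ (s⁻¹ * x)) → ‖η - ξ‖ ≤ ε := by
  classical
  obtain ⟨f, hf, hLf⟩ := exists_l1 hG S (ε ^ 2) (by positivity)
  set g : G →₀ ℂ := f.mapRange (fun c => ((Real.sqrt c : ℝ) : ℂ)) (by simp) with hg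
  set ξ : lp (fun _ : G => ℂ) 2 := ∑ x ∈ f.support, lp.single 2 x (g x) with hξ
  have hξa : ∀ y, ξ y = ((Real.sqrt (f y) : ℝ) : ℂ) := by
    intro y
    have h1 : (ξ : G → ℂ) y = ∑ x ∈ f.support, (lp.single 2 x (g x) : lp (fun _ : G => ℂ) 2) y := by
      rw [hξ, lp.coeFn_sum, Finset.sum_apply]
    rw [h1]
    by_cases hy : y ∈ f.support
    · rw [Finset.sum_eq_single y]
      · rw [lp.single_apply_self, hg, Finsupp.mapRange_apply]
      · intro b _ hb
        rw [lp.single_apply_ne _ _ _ hb.symm]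
      · intro h
        exact absurd hy h
    · rw [Finset.sum_eq_zero]
      · rw [Finsupp.notMem_support_iff] at hy
        rw [hy]
        simp
      · intro b hb
        rw [lp.single_apply_ne]
        rintro rfl
        exact hy hb
  refine ⟨ξ, ?_, ?_⟩
  · have h1 := lp.norm_sum_single (p := 2) (E := fun _ : G => ℂ) (by norm_num) (fun x => g x) f.support
    have h3 : ∑ x ∈ f.support, ‖g x‖ ^ (2 : ℝ) = 1 := by
      have h4 := hf.2
      rw [Finsupp.sum] at h4
      rw [← h4]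
      apply Finset.sum_congr rfl
      intro x _
      rw [hg, Finsupp.mapRange_apply, Complex.norm_real, Real.norm_eq_abs,
        abs_of_nonneg (Real.sqrt_nonneg _), Real.rpow_two, Real.sq_sqrt (hf.1 x)]
    have h2 : ‖ξ‖ ^ 2 = 1 := by
      simp only [ENNReal.toReal_ofNat] at h1
      rw [h3, Real.rpow_two] at h1
      exact h1
    have h3 := norm_nonneg ξ
    nlinarith [sq_nonneg (‖ξ‖ - 1)]
  · intro s hs η hη
    apply lp.norm_le_of_forall_sum_le (p := 2) (by norm_num) hε.le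
    intro D
    have hJ : ‖J (tr s f - f)‖ < ε ^ 2 := by
      refine lt_of_le_of_lt ?_ hLf
      have := norm_le_pi_norm (L S f) ⟨s, hs⟩
      simpa [L] using this
    have h1 := l1_norm f s D _ hJ
    have h2 : ∑ y ∈ D, ‖(η - ξ) y‖ ^ (2 : ℝ) ≤ ∑ y ∈ D, |f (s⁻¹ * y) - f y| := by
      apply Finset.sum_le_sum
      intro y _
      have h3 : (η - ξ) y = (((Real.sqrt (f (s⁻¹ * y)) - Real.sqrt (f y) : ℝ)) : ℂ) := by
        rw [lp.coeFn_sub, Pi.sub_apply, hη, hξa, hξa]
        push_cast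
        ring
      rw [h3, Complex.norm_real, Real.norm_eq_abs, Real.rpow_two, sq_abs]
      exact sqrt_diff _ _ (hf.1 _) (hf.1 _)
    simpa using h2.trans h1.le

end Pool.Agent.TH611.DX.Day
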