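import Mathlib
import Pool.Agent.TH278.DX.Defs3
import Pool.Agent.TH570.J5176
import Pool.Agent.TH611.DX.Day
set_option autoImplicit false

/-!
# Amenable quotients of groups with property (T) are finite
-/

namespace Pool.Agent.TH611.DX.Tee

open Pool.Agent.TH278.DX

/-- property (T) -/
def PropT (G : Type) [Group G] : Prop :=
  ∃ (S : Finset G) (ε : ℝ), 0 < ε ∧
    ∀ (H : Type) [NormedAddCommGroup H] [InnerProductSpace ℂ H] [CompleteSpace H]
      (σ : G →* (H →L[ℂ] H)ˣ),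
      (∀ g, ((σ g : (H →L[ℂ] H)ˣ) : H →L[ℂ] H) ∈ unitary (H →L[ℂ] H)) →
      ∀ ξ : H, ξ ≠ 0 → (∀ s ∈ S, ‖((σ s : (H →L[ℂ] H)ˣ) : H →L[ℂ] H) ξ - ξ‖ ≤ ε * ‖ξ‖) →
        ∃ η : H, η ≠ 0 ∧ ∀ g, ((σ g : (H →L[ℂ] H)ˣ) : H →L[ℂ] H) η = η

/-- a nonzero square summable function invariant under all translations exists only on a finite
group -/
theorem finite_of_invariant {Q : Type} [Group Q] (η : lp (fun _ : Q => ℂ) 2) (h0 : η ≠ 0)
    (hη : ∀ (t s : Q), η (t⁻¹ * s) = η s) : Finite Q := by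
  by_contra hinf
  rw [not_finite_iff_infinite] at hinf
  have hc : ∀ s : Q, η s = η 1 := by
    intro s
    have := hη s s
    rw [inv_mul_cancel] at this
    exact this.symm
  have h1 : η 1 ≠ 0 := by
    intro h
    apply h0
    apply lp.ext
    funext s
    rw [hc s, h]
    rfl
  have hpos : 0 < ‖η 1‖ ^ 2 := by positivity
  obtain ⟨n, hn⟩ := exists_nat_gt (‖η‖ ^ 2 / ‖η 1‖ ^ 2)
  obtain ⟨D, hD⟩ := Infinite.exists_subset_card_eq Q n
  have h2 := lp.sum_rpow_le_norm_rpow (p := 2) (by norm_num) η D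
  simp only [ENNReal.toReal_ofNat, Real.rpow_two] at h2
  have h3 : ∑ s ∈ D, ‖η s‖ ^ 2 = n * ‖η 1‖ ^ 2 := by
    rw [Finset.sum_congr rfl fun s _ => by rw [hc s], Finset.sum_const, hD, nsmul_eq_mul]
  rw [h3] at h2
  rw [div_lt_iff₀ hpos] at hn
  linarith

/-- Amenable quotients of groups with property (T) are finite. -/
theorem finite_of_amenable {G Q : Type} [Group G] [Group Q] (hT : PropT G) (φ : G →* Q)
    (hφ : Function.Surjective φ) (hQ : Amenable Q) : Finite Q := by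
  classical
  obtain ⟨S, ε, hε, hT⟩ := hT
  obtain ⟨σ, hσu, hσ⟩ := Pool.Agent.TH570.J5176.exists_reg Q ℂ
  obtain ⟨ξ, hξ1, hξ⟩ := Pool.Agent.TH611.DX.Day.exists_almost_invariant hQ (S.image φ) ε hε
  have hξ0 : ξ ≠ 0 := by
    rintro rfl
    rw [norm_zero] at hξ1
    exact zero_ne_one hξ1
  obtain ⟨η, hη0, hη⟩ := hT (lp (fun _ : Q => ℂ) 2) (σ.comp φ) (fun g => hσu (φ g)) ξ hξ0 (by
    intro s hs
    rw [hξ1, mul_one]
    exact hξ (φ s) (Finset.mem_image_of_mem _ hs) _ (fun x => hσ (φ s) ξ x))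
  apply finite_of_invariant η hη0
  intro t s
  obtain ⟨g, rfl⟩ := hφ t
  rw [← hσ (φ g) η s]
  exact congrArg (fun ζ : lp (fun _ : Q => ℂ) 2 => ζ s) (hη g)

end Pool.Agent.TH611.DX.Tee
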