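import Mathlib
import Pool.Agent.TH278.DX.Defs3
set_option autoImplicit false
set_option linter.unusedSectionVars false

namespace Pool.Agent.TH611.DX.Far

theorem sum_sq_le {G V : Type} [NormedAddCommGroup V]
    (φ : lp (fun _ : G => V) 2) (D : Finset G) : ∑ v ∈ D, ‖φ v‖ ^ 2 ≤ ‖φ‖ ^ 2 := by
  have h := lp.sum_rpow_le_norm_rpow (p := 2) (by norm_num) φ D
  simpa using h

variable {G Q : Type} [Group G] [Fintype Q] [DecidableEq Q] [DecidableEq G]

theorem norm_e (v : G) (b : Q) :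
    ‖(lp.single 2 v (EuclideanSpace.single b (1 : ℂ)) : lp (fun _ : G => EuclideanSpace ℂ Q) 2)‖ = 1 := by
  rw [lp.norm_single (by norm_num)]
  simp

theorem col (E : Finset G)
    (D : lp (fun _ : G => EuclideanSpace ℂ Q) 2 →L[ℂ] lp (fun _ : G => EuclideanSpace ℂ Q) 2) :
    ∑ g ∈ E, ∑ b : Q, ‖D (lp.single 2 1 (EuclideanSpace.single b (1 : ℂ))) g⁻¹‖ ^ 2 ≤
      Fintype.card Q * ‖D‖ ^ 2 := by
  rw [Finset.sum_comm]
  have h1 : ∀ b : Q, ∑ g ∈ E, ‖D (lp.single 2 1 (EuclideanSpace.single b (1 : ℂ))) g⁻¹‖ ^ 2 ≤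
      ‖D‖ ^ 2 := by
    intro b
    set h := D (lp.single 2 1 (EuclideanSpace.single b (1 : ℂ))) with hh
    have h2 : ∑ v ∈ E.image (fun g => g⁻¹), ‖h v‖ ^ 2 = ∑ g ∈ E, ‖h g⁻¹‖ ^ 2 :=
      Finset.sum_image (by intro a _ b _ hab; exact inv_injective hab)
    rw [← h2]
    refine (sum_sq_le h _).trans ?_
    apply pow_le_pow_left₀ (norm_nonneg _)
    refine (D.le_opNorm _).trans ?_
    rw [norm_e, mul_one]
  refine (Finset.sum_le_sum fun b _ => h1 b).trans ?_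
  rw [Finset.sum_const, Finset.card_univ, nsmul_eq_mul]

theorem row (E : Finset G)
    (D : lp (fun _ : G => EuclideanSpace ℂ Q) 2 →L[ℂ] lp (fun _ : G => EuclideanSpace ℂ Q) 2) :
    ∑ g ∈ E, ∑ b : Q, ‖D (lp.single 2 g (EuclideanSpace.single b (1 : ℂ))) 1‖ ^ 2 ≤
      Fintype.card Q * ‖D‖ ^ 2 := by
  set η : Q → lp (fun _ : G => EuclideanSpace ℂ Q) 2 := fun b' =>
    ContinuousLinearMap.adjoint D (lp.single 2 1 (EuclideanSpace.single b' (1 : ℂ))) with hη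
  have h1 : ∀ (g : G) (b b' : Q),
      ‖(D (lp.single 2 g (EuclideanSpace.single b (1 : ℂ))) 1) b'‖ = ‖(η b' g) b‖ := by
    intro g b b'
    have e1 : inner ℂ (η b') (lp.single 2 g (EuclideanSpace.single b (1 : ℂ))) =
        inner ℂ (lp.single 2 1 (EuclideanSpace.single b' (1 : ℂ)) :
          lp (fun _ : G => EuclideanSpace ℂ Q) 2)
          (D (lp.single 2 g (EuclideanSpace.single b (1 : ℂ)))) :=
      ContinuousLinearMap.adjoint_inner_left _ _ _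
    rw [lp.inner_single_left, lp.inner_single_right, EuclideanSpace.inner_single_left,
      EuclideanSpace.inner_single_right] at e1
    have e2 := congrArg norm e1
    simp only [map_one, one_mul, norm_mul, RCLike.norm_conj] at e2
    rw [← e2]
  have h2 : ∀ (g : G), ∑ b : Q, ‖D (lp.single 2 g (EuclideanSpace.single b (1 : ℂ))) 1‖ ^ 2 =
      ∑ b' : Q, ‖η b' g‖ ^ 2 := by
    intro g
    simp only [EuclideanSpace.norm_sq_eq]
    rw [Finset.sum_comm]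
    simp only [h1]
  simp only [h2]
  rw [Finset.sum_comm]
  have h3 : ∀ b' : Q, ∑ g ∈ E, ‖η b' g‖ ^ 2 ≤ ‖D‖ ^ 2 := by
    intro b'
    refine (sum_sq_le (η b') _).trans ?_
    apply pow_le_pow_left₀ (norm_nonneg _)
    refine ((ContinuousLinearMap.adjoint D).le_opNorm _).trans ?_
    rw [norm_e, mul_one]
    exact le_of_eq (LinearIsometryEquiv.norm_map _ D)
  refine (Finset.sum_le_sum fun b _ => h3 b).trans ?_
  rw [Finset.sum_const, Finset.card_univ, nsmul_eq_mul]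

end Pool.Agent.TH611.DX.Far

namespace Pool.Agent.TH611.DX

theorem far {G Q : Type} [Group G] [Fintype Q] [DecidableEq Q] [Nonempty Q] (E : Finset G)
    (F : G → ℝ) (hF : ∀ g, 0 ≤ F g) (Y : G → (EuclideanSpace ℂ Q →L[ℂ] EuclideanSpace ℂ Q))
    (hY : ∀ g, ‖Y g‖ ≤ 1) (ε δ : ℝ) (hε : ε ≤ 1) (hδ0 : 0 ≤ δ) (hδ : δ ≤ 1)
    (hYtr : ∀ g ∈ E, (1 - ε) * Fintype.card Q ≤ ∑ b : Q, ‖Y g (EuclideanSpace.single b 1)‖ ^ 2)
    (w : G → G → ℝ) (hw : ∀ s v, w s v = 0 ∨ w s v = 1)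
    (hrow : ∑ g ∈ E, F g * w 1 g ≤ δ) (hcol : 1 - δ ≤ ∑ g ∈ E, F g * w g⁻¹ 1)
    (T : lp (fun _ : G => EuclideanSpace ℂ Q) 2 →L[ℂ] lp (fun _ : G => EuclideanSpace ℂ Q) 2)
    (hT : ∀ (φ : lp (fun _ : G => EuclideanSpace ℂ Q) 2) (s : G),
        T φ s = ∑ g ∈ E, ((Real.sqrt (F g) * w s (s * g) : ℝ) : ℂ) • Y g (φ (s * g)))
    (σ : G → (lp (fun _ : G => EuclideanSpace ℂ Q) 2 →L[ℂ] lp (fun _ : G => EuclideanSpace ℂ Q) 2))
    (hσ : ∀ (t : G) (φ : lp (fun _ : G => EuclideanSpace ℂ Q) 2) (s : G),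
      σ t φ s = φ (t⁻¹ * s))
    (B : lp (fun _ : G => EuclideanSpace ℂ Q) 2 →L[ℂ] lp (fun _ : G => EuclideanSpace ℂ Q) 2)
    (hB : ∀ t, B * σ t = σ t * B) :
    Real.sqrt ((1 - δ) * (1 - ε)) - Real.sqrt δ ≤ 2 * ‖T - B‖ := by
  classical
  set D := T - B with hD
  set N : ℝ := (Fintype.card Q : ℝ) with hN
  have hN0 : 0 < N := by rw [hN]; exact_mod_cast Fintype.card_pos
  set e : Q → EuclideanSpace ℂ Q := fun b => EuclideanSpace.single b (1 : ℂ) with he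
  -- the kernel of `B`
  set β : G → Q → EuclideanSpace ℂ Q := fun g b => B (lp.single 2 1 (e b)) g⁻¹ with hβ
  have hBg : ∀ (g : G) (b : Q), B (lp.single 2 g (e b)) 1 = β g b := by
    intro g b
    have h1 : (lp.single 2 g (e b) : lp (fun _ : G => EuclideanSpace ℂ Q) 2) =
        σ g (lp.single 2 1 (e b)) := by
      apply lp.ext
      funext s
      rw [hσ]
      by_cases hs : s = g
      · subst hs
        rw [lp.single_apply_self, inv_mul_cancel, lp.single_apply_self]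
      · rw [lp.single_apply_ne _ _ _ hs, lp.single_apply_ne]
        intro h
        apply hs
        rw [inv_mul_eq_one] at h
        exact h.symm
    have h2 : B (σ g (lp.single 2 1 (e b))) = σ g (B (lp.single 2 1 (e b))) := by
      have := congrArg (fun A => A (lp.single 2 1 (e b))) (hB g)
      simpa using this
    rw [h1, h2, hσ, mul_one]
  have hTc : ∀ g ∈ E, ∀ b : Q, T (lp.single 2 1 (e b)) g⁻¹ =
      ((Real.sqrt (F g) * w g⁻¹ 1 : ℝ) : ℂ) • Y g (e b) := by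
    intro g hg b
    rw [hT, Finset.sum_eq_single g]
    · rw [inv_mul_cancel, lp.single_apply_self]
    · intro g' _ hne
      rw [lp.single_apply_ne, map_zero, smul_zero]
      intro h
      apply hne
      rw [inv_mul_eq_one] at h
      exact h.symm
    · intro h
      exact absurd hg h
  have hTr : ∀ g ∈ E, ∀ b : Q, T (lp.single 2 g (e b)) 1 =
      ((Real.sqrt (F g) * w 1 g : ℝ) : ℂ) • Y g (e b) := by
    intro g hg b
    rw [hT, Finset.sum_eq_single g]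
    · rw [one_mul, lp.single_apply_self]
    · intro g' _ hne
      rw [one_mul, lp.single_apply_ne _ _ _ hne, map_zero, smul_zero]
    · intro h
      exact absurd hg h
  set xc : PiLp 2 (fun _ : E × Q => EuclideanSpace ℂ Q) :=
    WithLp.toLp 2 (fun p => ((Real.sqrt (F p.1) * w (p.1 : G)⁻¹ 1 : ℝ) : ℂ) • Y p.1 (e p.2)) with hxc
  set xr : PiLp 2 (fun _ : E × Q => EuclideanSpace ℂ Q) :=
    WithLp.toLp 2 (fun p => ((Real.sqrt (F p.1) * w 1 (p.1 : G) : ℝ) : ℂ) • Y p.1 (e p.2)) with hxr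
  set xb : PiLp 2 (fun _ : E × Q => EuclideanSpace ℂ Q) :=
    WithLp.toLp 2 (fun p => β p.1 p.2) with hxb
  have conv : ∀ f : G → Q → ℝ, ∑ p : E × Q, f p.1 p.2 = ∑ g ∈ E, ∑ b : Q, f g b := by
    intro f
    rw [Fintype.sum_prod_type, ← Finset.sum_coe_sort E]
  have hc : ‖xc - xb‖ ^ 2 ≤ N * ‖D‖ ^ 2 := by
    rw [PiLp.norm_sq_eq_of_L2]
    have h1 : ∑ p : E × Q, ‖(xc - xb) p‖ ^ 2 = ∑ p : E × Q,
        ‖D (lp.single 2 1 (e p.2)) (p.1 : G)⁻¹‖ ^ 2 := by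
      apply Finset.sum_congr rfl
      intro p _
      congr 2
      rw [hD]
      change _ = T (lp.single 2 1 (e p.2)) (p.1 : G)⁻¹ - B (lp.single 2 1 (e p.2)) (p.1 : G)⁻¹
      rw [hTc p.1 p.1.2]
      rfl
    rw [h1, conv (fun g b => ‖D (lp.single 2 1 (e b)) g⁻¹‖ ^ 2)]
    exact Far.col E D
  have hr : ‖xr - xb‖ ^ 2 ≤ N * ‖D‖ ^ 2 := by
    rw [PiLp.norm_sq_eq_of_L2]
    have h1 : ∑ p : E × Q, ‖(xr - xb) p‖ ^ 2 = ∑ p : E × Q,
        ‖D (lp.single 2 (p.1 : G) (e p.2)) 1‖ ^ 2 := by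
      apply Finset.sum_congr rfl
      intro p _
      congr 2
      rw [hD]
      change _ = T (lp.single 2 (p.1 : G) (e p.2)) 1 - B (lp.single 2 (p.1 : G) (e p.2)) 1
      rw [hTr p.1 p.1.2, hBg]
      rfl
    rw [h1, conv (fun g b => ‖D (lp.single 2 g (e b)) 1‖ ^ 2)]
    exact Far.row E D
  have hsq : ∀ (g : G) (c : ℝ) (b : Q), (c = 0 ∨ c = 1) →
      ‖((Real.sqrt (F g) * c : ℝ) : ℂ) • Y g (e b)‖ ^ 2 = (F g * c) * ‖Y g (e b)‖ ^ 2 := by
    intro g c b hc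
    rw [norm_smul, mul_pow, Complex.norm_real, Real.norm_eq_abs, sq_abs, mul_pow,
      Real.sq_sqrt (hF g)]
    rcases hc with rfl | rfl <;> simp
  have hxcn : (1 - δ) * (1 - ε) * N ≤ ‖xc‖ ^ 2 := by
    rw [PiLp.norm_sq_eq_of_L2]
    have h1 : ∑ p : E × Q, ‖xc p‖ ^ 2 = ∑ g ∈ E, ∑ b : Q, (F g * w g⁻¹ 1) * ‖Y g (e b)‖ ^ 2 := by
      rw [← conv (fun g b => (F g * w g⁻¹ 1) * ‖Y g (e b)‖ ^ 2)]
      apply Finset.sum_congr rfl
      intro p _
      exact hsq p.1 _ p.2 (hw _ _)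
    rw [h1]
    have h2 : ∀ g ∈ E, (F g * w g⁻¹ 1) * ((1 - ε) * N) ≤
        ∑ b : Q, (F g * w g⁻¹ 1) * ‖Y g (e b)‖ ^ 2 := by
      intro g hg
      rw [← Finset.mul_sum]
      apply mul_le_mul_of_nonneg_left (hYtr g hg)
      rcases hw g⁻¹ 1 with h | h <;> rw [h] <;> simp [hF g]
    refine le_trans ?_ (Finset.sum_le_sum h2)
    rw [← Finset.sum_mul, mul_assoc]
    apply mul_le_mul_of_nonneg_right hcol
    exact mul_nonneg (by linarith) hN0.le
  have hxrn : ‖xr‖ ^ 2 ≤ δ * N := by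
    rw [PiLp.norm_sq_eq_of_L2]
    have h1 : ∑ p : E × Q, ‖xr p‖ ^ 2 = ∑ g ∈ E, ∑ b : Q, (F g * w 1 g) * ‖Y g (e b)‖ ^ 2 := by
      rw [← conv (fun g b => (F g * w 1 g) * ‖Y g (e b)‖ ^ 2)]
      apply Finset.sum_congr rfl
      intro p _
      exact hsq p.1 _ p.2 (hw _ _)
    rw [h1]
    have h2 : ∀ g ∈ E, ∑ b : Q, (F g * w 1 g) * ‖Y g (e b)‖ ^ 2 ≤ (F g * w 1 g) * N := by
      intro g hg
      rw [← Finset.mul_sum]
      apply mul_le_mul_of_nonneg_left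
      · have h3 : ∀ b : Q, ‖Y g (e b)‖ ^ 2 ≤ 1 := by
          intro b
          have h4 : ‖Y g (e b)‖ ≤ 1 := by
            refine ((Y g).le_opNorm _).trans ?_
            have : ‖e b‖ = 1 := by rw [he]; simp
            rw [this, mul_one]
            exact hY g
          exact pow_le_one₀ (norm_nonneg _) h4
        calc ∑ b : Q, ‖Y g (e b)‖ ^ 2 ≤ ∑ _b : Q, (1 : ℝ) := Finset.sum_le_sum fun b _ => h3 b
          _ = N := by rw [Finset.sum_const, Finset.card_univ, nsmul_eq_mul, mul_one]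
      · rcases hw 1 g with h | h <;> rw [h] <;> simp [hF g]
    refine (Finset.sum_le_sum h2).trans ?_
    rw [← Finset.sum_mul]
    exact mul_le_mul_of_nonneg_right hrow hN0.le
  -- triangle inequality
  have tri : ‖xc‖ ≤ ‖xc - xb‖ + ‖xr - xb‖ + ‖xr‖ := by
    have h1 : xc = (xc - xb) - (xr - xb) + xr := by abel
    calc ‖xc‖ = ‖(xc - xb) - (xr - xb) + xr‖ := by rw [← h1]
      _ ≤ ‖(xc - xb) - (xr - xb)‖ + ‖xr‖ := norm_add_le _ _
      _ ≤ _ := by gcongr; exact norm_sub_le _ _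
  have sN : 0 < Real.sqrt N := Real.sqrt_pos.2 hN0
  have b1 : ‖xc - xb‖ ≤ Real.sqrt N * ‖D‖ := by
    apply le_of_sq_le_sq' _ (by positivity)
    rw [mul_pow, Real.sq_sqrt hN0.le]
    exact hc
  have b2 : ‖xr - xb‖ ≤ Real.sqrt N * ‖D‖ := by
    apply le_of_sq_le_sq' _ (by positivity)
    rw [mul_pow, Real.sq_sqrt hN0.le]
    exact hr
  have b3 : ‖xr‖ ≤ Real.sqrt δ * Real.sqrt N := by
    apply le_of_sq_le_sq' _ (by positivity)
    rw [mul_pow, Real.sq_sqrt hN0.le, Real.sq_sqrt hδ0]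
    exact hxrn
  have b4 : Real.sqrt ((1 - δ) * (1 - ε)) * Real.sqrt N ≤ ‖xc‖ := by
    rw [← Real.sqrt_mul (mul_nonneg (by linarith) (by linarith))]
    rw [Real.sqrt_le_left (norm_nonneg _)]
    exact hxcn
  have fin : Real.sqrt ((1 - δ) * (1 - ε)) * Real.sqrt N ≤
      (2 * ‖D‖ + Real.sqrt δ) * Real.sqrt N := by
    calc _ ≤ ‖xc‖ := b4
      _ ≤ _ := tri
      _ ≤ Real.sqrt N * ‖D‖ + Real.sqrt N * ‖D‖ + Real.sqrt δ * Real.sqrt N := by gcongr
      _ = _ := by ring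
  have := le_of_mul_le_mul_right fin sN
  linarith
where
  le_of_sq_le_sq' {a b : ℝ} (h : a ^ 2 ≤ b ^ 2) (hb : 0 ≤ b) : a ≤ b := abs_le_of_sq_le_sq' h hb |>.2

end Pool.Agent.TH611.DX
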