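import Mathlib
import Pool.Agent.TH278.DX.Defs3
set_option autoImplicit false

namespace Pool.Agent.TH611.DX

theorem sum_X {G : Type} [Group G] (K X : Finset G) (ξs : G → ℝ) (s : G)
    (h0 : ∀ x, ξs x ≠ 0 → s⁻¹ * x ∈ K) (hX : ∀ k ∈ K, s * k ∈ X) (h : G → ℝ) :
    ∑ x ∈ X, ξs x * h x = ∑ k ∈ K, ξs (s * k) * h (s * k) := by
  classical
  have h1 : ∑ x ∈ K.image (fun k => s * k), ξs x * h x = ∑ k ∈ K, ξs (s * k) * h (s * k) :=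
    Finset.sum_image (by intro a _ b _ hab; exact mul_left_cancel hab)
  rw [← h1]
  symm
  apply Finset.sum_subset
  · intro x hx
    obtain ⟨k, hk, rfl⟩ := Finset.mem_image.1 hx
    exact hX k hk
  · intro x _ hx
    by_contra hne
    have : ξs x ≠ 0 := fun h => hne (by rw [h, zero_mul])
    exact hx (Finset.mem_image.2 ⟨_, h0 x this, by group⟩)

theorem sq_le_one {G : Type} [Group G] (K : Finset G) (ξ : G → G → ℝ)
    (hξ0 : ∀ v x, ξ v x ≠ 0 → v⁻¹ * x ∈ K) (hξ1 : ∀ v, ∑ k ∈ K, ξ v (v * k) ^ 2 = 1)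
    (s v : G) : ∑ k ∈ K, ξ v (s * k) ^ 2 ≤ 1 := by
  classical
  have h1 : ∑ x ∈ K.image (fun k => s * k), ξ v x ^ 2 = ∑ k ∈ K, ξ v (s * k) ^ 2 :=
    Finset.sum_image (by intro a _ b _ hab; exact mul_left_cancel hab)
  rw [← h1, ← hξ1 v]
  have h2 := sum_X K (K.image (fun k => s * k) ∪ K.image (fun k => v * k)) (ξ v) v (hξ0 v)
    (fun k hk => Finset.mem_union_right _ (Finset.mem_image_of_mem _ hk)) (ξ v)
  have h3 : ∑ k ∈ K, ξ v (v * k) ^ 2 = ∑ k ∈ K, ξ v (v * k) * ξ v (v * k) :=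
    Finset.sum_congr rfl fun k _ => sq _
  rw [h3, ← h2]
  calc ∑ x ∈ K.image (fun k => s * k), ξ v x ^ 2
      ≤ ∑ x ∈ K.image (fun k => s * k) ∪ K.image (fun k => v * k), ξ v x ^ 2 :=
        Finset.sum_le_sum_of_subset_of_nonneg Finset.subset_union_left (fun _ _ _ => sq_nonneg _)
    _ = _ := Finset.sum_congr rfl fun k _ => sq _

theorem kap_le_one {G : Type} [Group G] (K : Finset G) (ξ : G → G → ℝ)
    (hξ0 : ∀ v x, ξ v x ≠ 0 → v⁻¹ * x ∈ K) (hξ1 : ∀ v, ∑ k ∈ K, ξ v (v * k) ^ 2 = 1)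
    (s v : G) : ∑ k ∈ K, ξ s (s * k) * ξ v (s * k) ≤ 1 := by
  have h1 := sq_le_one K ξ hξ0 hξ1 s v
  have h2 := hξ1 s
  have h3 : ∑ k ∈ K, ξ s (s * k) * ξ v (s * k) ≤
      ∑ k ∈ K, (ξ s (s * k) ^ 2 / 2 + ξ v (s * k) ^ 2 / 2) := by
    apply Finset.sum_le_sum
    intro k _
    nlinarith [sq_nonneg (ξ s (s * k) - ξ v (s * k))]
  rw [Finset.sum_add_distrib, ← Finset.sum_div, ← Finset.sum_div] at h3
  linarith

set_option linter.unusedSectionVars false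
variable {G W : Type} [Group G] [NormedAddCommGroup W] [InnerProductSpace ℂ W]

theorem sum_sq_le (φ : lp (fun _ : G => W) 2) (V : Finset G) :
    ∑ v ∈ V, ‖φ v‖ ^ 2 ≤ ‖φ‖ ^ 2 := by
  have h := lp.sum_rpow_le_norm_rpow (p := 2) (by norm_num) φ V
  simpa using h

theorem sum_shift_le (φ : lp (fun _ : G => W) 2) (D : Finset G) (g : G) :
    ∑ s ∈ D, ‖φ (s * g)‖ ^ 2 ≤ ‖φ‖ ^ 2 := by
  classical
  have h1 : ∑ v ∈ D.image (fun s => s * g), ‖φ v‖ ^ 2 = ∑ s ∈ D, ‖φ (s * g)‖ ^ 2 :=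
    Finset.sum_image (by intro a _ b _ hab; exact mul_right_cancel hab)
  rw [← h1]
  exact sum_sq_le φ _

theorem sum_b_le (K X : Finset G) (ξ : G → G → ℝ) (hξ1 : ∀ v, ∑ k ∈ K, ξ v (v * k) ^ 2 = 1)
    (φ : lp (fun _ : G => W) 2) :
    ∑ x ∈ X, ∑ k ∈ K, ‖((ξ (x * k⁻¹) x : ℝ) : ℂ) • φ (x * k⁻¹)‖ ^ 2 ≤ ‖φ‖ ^ 2 := by
  classical
  rw [Finset.sum_comm]
  set V : Finset G := (X ×ˢ K).image (fun q => q.1 * q.2⁻¹) with hV
  have h1 : ∀ k ∈ K, ∑ x ∈ X, ‖((ξ (x * k⁻¹) x : ℝ) : ℂ) • φ (x * k⁻¹)‖ ^ 2 ≤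
      ∑ v ∈ V, ξ v (v * k) ^ 2 * ‖φ v‖ ^ 2 := by
    intro k hk
    have h2 : ∑ v ∈ X.image (fun x => x * k⁻¹), ξ v (v * k) ^ 2 * ‖φ v‖ ^ 2 =
        ∑ x ∈ X, ξ (x * k⁻¹) (x * k⁻¹ * k) ^ 2 * ‖φ (x * k⁻¹)‖ ^ 2 :=
      Finset.sum_image (by intro a _ b _ hab; exact mul_right_cancel hab)
    have h3 : ∑ x ∈ X, ‖((ξ (x * k⁻¹) x : ℝ) : ℂ) • φ (x * k⁻¹)‖ ^ 2 =
        ∑ x ∈ X, ξ (x * k⁻¹) (x * k⁻¹ * k) ^ 2 * ‖φ (x * k⁻¹)‖ ^ 2 := by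
      apply Finset.sum_congr rfl
      intro x _
      rw [norm_smul, mul_pow, inv_mul_cancel_right, Complex.norm_real, Real.norm_eq_abs, sq_abs]
    rw [h3, ← h2]
    apply Finset.sum_le_sum_of_subset_of_nonneg
    · intro v hv
      obtain ⟨x, hx, rfl⟩ := Finset.mem_image.1 hv
      exact Finset.mem_image.2 ⟨(x, k), Finset.mem_product.2 ⟨hx, hk⟩, rfl⟩
    · intro v _ _
      positivity
  calc _ ≤ ∑ k ∈ K, ∑ v ∈ V, ξ v (v * k) ^ 2 * ‖φ v‖ ^ 2 := Finset.sum_le_sum h1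
    _ = ∑ v ∈ V, ∑ k ∈ K, ξ v (v * k) ^ 2 * ‖φ v‖ ^ 2 := Finset.sum_comm
    _ = ∑ v ∈ V, ‖φ v‖ ^ 2 := by
        apply Finset.sum_congr rfl
        intro v _
        rw [← Finset.sum_mul, hξ1, one_mul]
    _ ≤ _ := sum_sq_le φ V

/-- the local estimate for one `x` -/
theorem one_x (E : Finset G) (Y : G → (W →L[ℂ] W)) (f : G → ℝ)
    (w : G → G → ℝ) (K : Finset G) (ξ : G → G → ℝ) (hξ0 : ∀ v x, ξ v x ≠ 0 → v⁻¹ * x ∈ K)
    (R : ℝ) (hR : 0 ≤ R)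
    (hloc : ∀ (x : G) (φ : G → W), (∀ v, v⁻¹ * x ∉ K → φ v = 0) →
      ∑ k ∈ K, ‖∑ g ∈ E, ((f g * w (x * k⁻¹) (x * k⁻¹ * g) : ℝ) : ℂ) •
        Y g (φ (x * k⁻¹ * g))‖ ^ 2 ≤ R ^ 2 * ∑ k ∈ K, ‖φ (x * k⁻¹)‖ ^ 2)
    (φ ψ : G → W) (D : Finset G) (x : G) :
    ‖∑ s ∈ D, ∑ g ∈ E, ((ξ s x * ξ (s * g) x : ℝ) : ℂ) * (((f g * w s (s * g) : ℝ) : ℂ) *
        inner ℂ (ψ s) (Y g (φ (s * g))))‖ ≤
      R * (Real.sqrt (∑ s ∈ D, (ξ s x ^ 2 * ‖ψ s‖ ^ 2)) *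
        Real.sqrt (∑ k ∈ K, ‖((ξ (x * k⁻¹) x : ℝ) : ℂ) • φ (x * k⁻¹)‖ ^ 2)) := by
  classical
  set φx : G → W := fun v => ((ξ v x : ℝ) : ℂ) • φ v with hφx
  set B : G → W := fun s => ∑ g ∈ E, ((f g * w s (s * g) : ℝ) : ℂ) • Y g (φx (s * g)) with hB
  have h1 : ∀ s, ∑ g ∈ E, ((ξ s x * ξ (s * g) x : ℝ) : ℂ) * (((f g * w s (s * g) : ℝ) : ℂ) *
        inner ℂ (ψ s) (Y g (φ (s * g)))) = ((ξ s x : ℝ) : ℂ) * inner ℂ (ψ s) (B s) := by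
    intro s
    rw [hB]
    simp only [hφx]
    rw [inner_sum, Finset.mul_sum]
    apply Finset.sum_congr rfl
    intro g _
    rw [map_smul, inner_smul_right, inner_smul_right]
    push_cast
    ring
  simp only [h1]
  have h2 : ‖∑ s ∈ D, ((ξ s x : ℝ) : ℂ) * inner ℂ (ψ s) (B s)‖ ≤
      ∑ s ∈ D.filter (fun s => s⁻¹ * x ∈ K), (|ξ s x| * ‖ψ s‖) * ‖B s‖ := by
    have h3 : ∑ s ∈ D, ((ξ s x : ℝ) : ℂ) * inner ℂ (ψ s) (B s) =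
        ∑ s ∈ D.filter (fun s => s⁻¹ * x ∈ K), ((ξ s x : ℝ) : ℂ) * inner ℂ (ψ s) (B s) := by
      rw [Finset.sum_filter]
      apply Finset.sum_congr rfl
      intro s _
      split_ifs with h
      · rfl
      · have : ξ s x = 0 := by
          by_contra hne
          exact h (hξ0 s x hne)
        rw [this]
        simp
    rw [h3]
    refine (norm_sum_le _ _).trans (Finset.sum_le_sum ?_)
    intro s _
    rw [norm_mul, Complex.norm_real, Real.norm_eq_abs, mul_assoc]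
    exact mul_le_mul_of_nonneg_left (norm_inner_le_norm _ _) (abs_nonneg _)
  refine h2.trans ((Real.sum_mul_le_sqrt_mul_sqrt _ _ _).trans ?_)
  have h4 : ∑ s ∈ D.filter (fun s => s⁻¹ * x ∈ K), (|ξ s x| * ‖ψ s‖) ^ 2 ≤
      ∑ s ∈ D, (ξ s x ^ 2 * ‖ψ s‖ ^ 2) := by
    have : ∀ s, (|ξ s x| * ‖ψ s‖) ^ 2 = ξ s x ^ 2 * ‖ψ s‖ ^ 2 := by
      intro s
      rw [mul_pow, sq_abs]
    simp only [this]
    exact Finset.sum_le_sum_of_subset_of_nonneg (Finset.filter_subset _ _)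
      (fun _ _ _ => by positivity)
  have h5 : ∑ s ∈ D.filter (fun s => s⁻¹ * x ∈ K), ‖B s‖ ^ 2 ≤
      R ^ 2 * ∑ k ∈ K, ‖((ξ (x * k⁻¹) x : ℝ) : ℂ) • φ (x * k⁻¹)‖ ^ 2 := by
    have h6 : ∑ k ∈ (D.filter (fun s => s⁻¹ * x ∈ K)).image (fun s => s⁻¹ * x),
        ‖B (x * k⁻¹)‖ ^ 2 = ∑ s ∈ D.filter (fun s => s⁻¹ * x ∈ K), ‖B (x * (s⁻¹ * x)⁻¹)‖ ^ 2 :=
      Finset.sum_image (by
        intro a _ b _ hab
        exact inv_injective (mul_right_cancel hab))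
    have h7 : ∀ s : G, x * (s⁻¹ * x)⁻¹ = s := by
      intro s
      group
    simp only [h7] at h6
    rw [← h6]
    refine le_trans ?_ (hloc x φx ?_)
    · apply Finset.sum_le_sum_of_subset_of_nonneg
      · intro k hk
        obtain ⟨s, hs, rfl⟩ := Finset.mem_image.1 hk
        exact (Finset.mem_filter.1 hs).2
      · intro k _ _
        positivity
    · intro v hv
      have : ξ v x = 0 := by
        by_contra hne
        exact hv (hξ0 v x hne)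
      rw [hφx]
      simp [this]
  calc _ ≤ Real.sqrt (∑ s ∈ D, (ξ s x ^ 2 * ‖ψ s‖ ^ 2)) *
        Real.sqrt (R ^ 2 * ∑ k ∈ K, ‖((ξ (x * k⁻¹) x : ℝ) : ℂ) • φ (x * k⁻¹)‖ ^ 2) :=
        mul_le_mul (Real.sqrt_le_sqrt h4) (Real.sqrt_le_sqrt h5) (Real.sqrt_nonneg _)
          (Real.sqrt_nonneg _)
    _ = _ := by
        rw [Real.sqrt_mul (sq_nonneg R), Real.sqrt_sq hR]
        ring

theorem bil (E : Finset G) (Y : G → (W →L[ℂ] W)) (f : G → ℝ) (hf : ∀ g, 0 ≤ f g)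
    (hY : ∀ g, ‖Y g‖ ≤ 1) (w : G → G → ℝ) (hw : ∀ s v, |w s v| ≤ 1)
    (K : Finset G) (ξ : G → G → ℝ) (hξ0 : ∀ v x, ξ v x ≠ 0 → v⁻¹ * x ∈ K)
    (hξ1 : ∀ v, ∑ k ∈ K, ξ v (v * k) ^ 2 = 1) (ε : ℝ) (hε : 0 ≤ ε)
    (hξ2 : ∀ v, ∀ g ∈ E, 1 - ε ≤ ∑ k ∈ K, ξ v (v * k) * ξ (v * g) (v * k)) (R : ℝ) (hR : 0 ≤ R)
    (hloc : ∀ (x : G) (φ : G → W), (∀ v, v⁻¹ * x ∉ K → φ v = 0) →
      ∑ k ∈ K, ‖∑ g ∈ E, ((f g * w (x * k⁻¹) (x * k⁻¹ * g) : ℝ) : ℂ) •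
        Y g (φ (x * k⁻¹ * g))‖ ^ 2 ≤ R ^ 2 * ∑ k ∈ K, ‖φ (x * k⁻¹)‖ ^ 2)
    (φ : lp (fun _ : G => W) 2) (ψ : G → W) (D : Finset G) :
    ‖∑ s ∈ D, ∑ g ∈ E, (((f g * w s (s * g) : ℝ) : ℂ) *
        inner ℂ (ψ s) (Y g (φ (s * g))))‖ ≤
      (R + ε * ∑ g ∈ E, f g) * ‖φ‖ * Real.sqrt (∑ s ∈ D, ‖ψ s‖ ^ 2) := by
  classical
  set X : Finset G := (D ×ˢ K).image (fun q => q.1 * q.2) with hXdef
  have hX : ∀ s ∈ D, ∀ k ∈ K, s * k ∈ X := by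
    intro s hs k hk
    exact Finset.mem_image.2 ⟨(s, k), Finset.mem_product.2 ⟨hs, hk⟩, rfl⟩
  set κ : G → G → ℝ := fun s g => ∑ k ∈ K, ξ s (s * k) * ξ (s * g) (s * k) with hκ
  set u : G → G → ℂ := fun s g => ((f g * w s (s * g) : ℝ) : ℂ) *
        inner ℂ (ψ s) (Y g (φ (s * g))) with hu
  have hsplit : ∑ s ∈ D, ∑ g ∈ E, u s g =
      (∑ s ∈ D, ∑ g ∈ E, ((κ s g : ℝ) : ℂ) * u s g) +
      ∑ s ∈ D, ∑ g ∈ E, ((1 - κ s g : ℝ) : ℂ) * u s g := by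
    rw [← Finset.sum_add_distrib]
    apply Finset.sum_congr rfl
    intro s _
    rw [← Finset.sum_add_distrib]
    apply Finset.sum_congr rfl
    intro g _
    push_cast
    ring
  have hfirst : ∑ s ∈ D, ∑ g ∈ E, ((κ s g : ℝ) : ℂ) * u s g =
      ∑ x ∈ X, ∑ s ∈ D, ∑ g ∈ E, ((ξ s x * ξ (s * g) x : ℝ) : ℂ) * u s g := by
    rw [Finset.sum_comm (s := X) (t := D)]
    apply Finset.sum_congr rfl
    intro s hs
    rw [Finset.sum_comm (s := X) (t := E)]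
    apply Finset.sum_congr rfl
    intro g _
    rw [← Finset.sum_mul]
    congr 1
    rw [← Complex.ofReal_sum]
    congr 1
    rw [hκ]
    exact (sum_X K X (ξ s) s (hξ0 s) (hX s hs) (ξ (s * g))).symm
  have hF1 : ‖∑ s ∈ D, ∑ g ∈ E, ((κ s g : ℝ) : ℂ) * u s g‖ ≤
      R * (Real.sqrt (∑ s ∈ D, ‖ψ s‖ ^ 2) * ‖φ‖) := by
    rw [hfirst]
    refine (norm_sum_le _ _).trans ?_
    refine (Finset.sum_le_sum (fun x _ => one_x E Y f w K ξ hξ0 R hR hloc (fun v => φ v) ψ D x)).trans ?_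
    rw [← Finset.mul_sum]
    apply mul_le_mul_of_nonneg_left _ hR
    refine (Real.sum_sqrt_mul_sqrt_le X (fun x => Finset.sum_nonneg fun s _ => by positivity)
      (fun x => Finset.sum_nonneg fun s _ => by positivity)).trans ?_
    apply mul_le_mul
    · apply Real.sqrt_le_sqrt
      rw [Finset.sum_comm]
      apply le_of_eq
      apply Finset.sum_congr rfl
      intro s hs
      rw [← Finset.sum_mul]
      have h1 := sum_X K X (ξ s) s (hξ0 s) (hX s hs) (ξ s)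
      have h2 := hξ1 s
      simp only [← sq] at h1
      rw [h1, h2, one_mul]
    · rw [Real.sqrt_le_left (norm_nonneg _)]
      exact sum_b_le K X ξ hξ1 φ
    · exact Real.sqrt_nonneg _
    · exact Real.sqrt_nonneg _
  have hF2 : ‖∑ s ∈ D, ∑ g ∈ E, ((1 - κ s g : ℝ) : ℂ) * u s g‖ ≤
      (ε * ∑ g ∈ E, f g) * (Real.sqrt (∑ s ∈ D, ‖ψ s‖ ^ 2) * ‖φ‖) := by
    rw [Finset.sum_comm]
    refine (norm_sum_le _ _).trans ?_
    rw [Finset.mul_sum, Finset.sum_mul]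
    apply Finset.sum_le_sum
    intro g hg
    have h1 : ‖∑ s ∈ D, ((1 - κ s g : ℝ) : ℂ) * u s g‖ ≤
        ∑ s ∈ D, (ε * f g) * (‖ψ s‖ * ‖φ (s * g)‖) := by
      refine (norm_sum_le _ _).trans (Finset.sum_le_sum ?_)
      intro s _
      have hk1 : κ s g ≤ 1 := kap_le_one K ξ hξ0 hξ1 s (s * g)
      have hk2 : 1 - ε ≤ κ s g := hξ2 s g hg
      rw [hu]
      simp only
      rw [norm_mul, norm_mul, Complex.norm_real, Complex.norm_real, Real.norm_eq_abs,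
        Real.norm_eq_abs, abs_mul, abs_of_nonneg (hf g)]
      have h2 : |1 - κ s g| ≤ ε := by
        rw [abs_of_nonneg (by linarith)]
        linarith
      have h3 : f g * |w s (s * g)| ≤ f g := by
        calc f g * |w s (s * g)| ≤ f g * 1 := mul_le_mul_of_nonneg_left (hw _ _) (hf g)
          _ = f g := mul_one _
      have h4 : ‖(inner ℂ (ψ s) (Y g (φ (s * g))) : ℂ)‖ ≤ ‖ψ s‖ * ‖φ (s * g)‖ := by
        refine (norm_inner_le_norm _ _).trans ?_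
        apply mul_le_mul_of_nonneg_left _ (norm_nonneg _)
        refine ((Y g).le_opNorm _).trans ?_
        calc ‖Y g‖ * ‖φ (s * g)‖ ≤ 1 * ‖φ (s * g)‖ :=
              mul_le_mul_of_nonneg_right (hY g) (norm_nonneg _)
          _ = _ := one_mul _
      have h5 : (0 : ℝ) ≤ f g * |w s (s * g)| := mul_nonneg (hf g) (abs_nonneg _)
      calc |1 - κ s g| * (f g * |w s (s * g)| * ‖(inner ℂ (ψ s) (Y g (φ (s * g))) : ℂ)‖)
          ≤ ε * (f g * (‖ψ s‖ * ‖φ (s * g)‖)) := by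
            apply mul_le_mul h2 _ (by positivity) hε
            apply mul_le_mul h3 h4 (norm_nonneg _) (hf g)
        _ = _ := by ring
    refine h1.trans ?_
    rw [← Finset.mul_sum]
    apply mul_le_mul_of_nonneg_left _ (mul_nonneg hε (hf g))
    refine (Real.sum_mul_le_sqrt_mul_sqrt _ _ _).trans ?_
    apply mul_le_mul_of_nonneg_left _ (Real.sqrt_nonneg _)
    rw [Real.sqrt_le_left (norm_nonneg _)]
    exact sum_shift_le φ D g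
  have hfin : ∑ s ∈ D, ∑ g ∈ E, (((f g * w s (s * g) : ℝ) : ℂ) *
        inner ℂ (ψ s) (Y g (φ (s * g)))) = ∑ s ∈ D, ∑ g ∈ E, u s g := rfl
  rw [hfin, hsplit]
  refine (norm_add_le _ _).trans ?_
  nlinarith [hF1, hF2]

theorem localize {G W : Type} [Group G] [NormedAddCommGroup W] [InnerProductSpace ℂ W]
    [CompleteSpace W] (E : Finset G) (Y : G → (W →L[ℂ] W)) (f : G → ℝ) (hf : ∀ g, 0 ≤ f g)
    (hY : ∀ g, ‖Y g‖ ≤ 1) (w : G → G → ℝ) (hw : ∀ s v, |w s v| ≤ 1)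
    (T : lp (fun _ : G => W) 2 →L[ℂ] lp (fun _ : G => W) 2)
    (hT : ∀ (φ : lp (fun _ : G => W) 2) (s : G),
        T φ s = ∑ g ∈ E, ((f g * w s (s * g) : ℝ) : ℂ) • Y g (φ (s * g)))
    (K : Finset G) (ξ : G → G → ℝ) (hξ0 : ∀ v x, ξ v x ≠ 0 → v⁻¹ * x ∈ K)
    (hξ1 : ∀ v, ∑ k ∈ K, ξ v (v * k) ^ 2 = 1) (ε : ℝ) (hε : 0 ≤ ε)
    (hξ2 : ∀ v, ∀ g ∈ E, 1 - ε ≤ ∑ k ∈ K, ξ v (v * k) * ξ (v * g) (v * k)) (R : ℝ) (hR : 0 ≤ R)
    (hloc : ∀ (x : G) (φ : G → W), (∀ v, v⁻¹ * x ∉ K → φ v = 0) →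
      ∑ k ∈ K, ‖∑ g ∈ E, ((f g * w (x * k⁻¹) (x * k⁻¹ * g) : ℝ) : ℂ) •
        Y g (φ (x * k⁻¹ * g))‖ ^ 2 ≤ R ^ 2 * ∑ k ∈ K, ‖φ (x * k⁻¹)‖ ^ 2) :
    ‖T‖ ≤ R + ε * ∑ g ∈ E, f g := by
  have hC : 0 ≤ R + ε * ∑ g ∈ E, f g :=
    add_nonneg hR (mul_nonneg hε (Finset.sum_nonneg fun g _ => hf g))
  apply ContinuousLinearMap.opNorm_le_bound _ hC
  intro φ
  apply lp.norm_le_of_forall_sum_le (p := 2) (by norm_num) (mul_nonneg hC (norm_nonneg _))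
  intro D
  have h1 := bil E Y f hf hY w hw K ξ hξ0 hξ1 ε hε hξ2 R hR hloc φ (fun s => T φ s) D
  set N : ℝ := ∑ s ∈ D, ‖T φ s‖ ^ 2 with hN
  have h2 : ∑ s ∈ D, ∑ g ∈ E, (((f g * w s (s * g) : ℝ) : ℂ) *
        inner ℂ (T φ s) (Y g (φ (s * g)))) = ((N : ℝ) : ℂ) := by
    rw [hN, Complex.ofReal_sum]
    apply Finset.sum_congr rfl
    intro s _
    have h3 : ∑ g ∈ E, (((f g * w s (s * g) : ℝ) : ℂ) *
        inner ℂ (T φ s) (Y g (φ (s * g)))) = inner ℂ (T φ s) (T φ s) := by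
      conv_rhs => rw [hT φ s]
      rw [inner_sum]
      apply Finset.sum_congr rfl
      intro g _
      rw [inner_smul_right, ← hT φ s]
    rw [h3, inner_self_eq_norm_sq_to_K]
    norm_cast
  have hN0 : 0 ≤ N := Finset.sum_nonneg fun s _ => by positivity
  rw [h2, Complex.norm_real, Real.norm_eq_abs, abs_of_nonneg hN0] at h1
  have h4 : N ≤ ((R + ε * ∑ g ∈ E, f g) * ‖φ‖) ^ 2 := by
    have hs := Real.sq_sqrt hN0
    have hs0 := Real.sqrt_nonneg N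
    have h5 : Real.sqrt N ≤ (R + ε * ∑ g ∈ E, f g) * ‖φ‖ := by
      by_contra hlt
      rw [not_le] at hlt
      have hpos : 0 < Real.sqrt N := lt_of_le_of_lt (mul_nonneg hC (norm_nonneg _)) hlt
      have : (R + ε * ∑ g ∈ E, f g) * ‖φ‖ * Real.sqrt N < Real.sqrt N * Real.sqrt N :=
        mul_lt_mul_of_pos_right hlt hpos
      nlinarith
    calc N = Real.sqrt N ^ 2 := hs.symm
      _ ≤ _ := pow_le_pow_left₀ hs0 h5 2
  simpa using h4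

end Pool.Agent.TH611.DX
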